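import Pool.Agent.Lib.P4ba0d5.Final

/-! Problem MP_4ba0d5_al: `H²(X_D(ℤ_p), 𝔏_D ⊗ 𝔽_p) = 0` for every connected Dynkin diagram `D` and
all large primes `p`. -/

namespace Pool.Agent.Results.MP_4ba0d5_al.ChevalleyH2

open Ch4

open scoped TensorProduct

/-- For every irreducible reduced crystallographic root system there is `p₀` such that for every Lie
ring `LZ` with a Chevalley basis, every integral representation `ρ` of `LZ` of dimension `n` and every
prime `p > max p₀ (n + 10)` the second continuous cohomology of the group `G` of `ℤ_p`-points of the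
Chevalley group scheme of `ρ ⊕ ad`, acting on `𝔽_p ⊗ LZ` by the adjoint action, vanishes. -/
theorem result {ι X Y : Type*} [Fintype ι] [DecidableEq ι] [AddCommGroup X] [Module ℚ X]
    [AddCommGroup Y] [Module ℚ Y] (P : RootPairing ι ℚ X Y) [P.IsRootSystem]
    [P.IsCrystallographic] [P.IsReduced] [P.IsIrreducible] (b : P.Base) :
    ∃ p₀ : ℕ, ∀ (LZ : Type*) [LieRing LZ] (B : ChevalleyBasis b ℤ LZ)
      (n : Type*) [Fintype n] [DecidableEq n] (ρ : LZ →+ Matrix n n ℤ), IsRep ρ →
      ∀ (p : ℕ) [Fact p.Prime], p₀ < p → Fintype.card n + 10 < p →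
      ∃ G : Subgroup ((Matrix n n ℤ_[p])ˣ × (Matrix (b.support ⊕ ι) (b.support ⊕ ι) ℤ_[p])ˣ),
        IsChevZp B ρ p G ∧
        H2Vanishes G ((ZMod p) ⊗[ℤ] LZ) (fun g => adjointAct B p g.1.2) :=
  chevalley_h2 P b

end Pool.Agent.Results.MP_4ba0d5_al.ChevalleyH2
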